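import Pool.Agent.TH314.PD.NPf

/-! Sparse parametrizations of smooth cubic hypersurfaces of dimension `n ≥ 5`: the degree of the map
is bounded by the volume of the Newton polytope. -/

set_option autoImplicit false

namespace Pool.Agent.Results.MP_2619d0_ag.NewtonPolytopes

open MvPolynomial MeasureTheory

/-- The tuple `G` of polynomials in `N` variables gives a dominant rational map to the
hypersurface `F = 0`: `F` vanishes at `G`, and every form vanishing at `G` is divisible by `F`. -/
def Dominant {m N : ℕ} (F : MvPolynomial (Fin m) ℂ) (G : Fin m → MvPolynomial (Fin N) ℂ) : Prop :=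
  aeval G F = 0 ∧ ∀ (e : ℕ) (H : MvPolynomial (Fin m) ℂ), H.IsHomogeneous e →
    aeval G H = 0 → F ∣ H

/-- the subfield of the field of rational functions `ℂ(t_1, …, t_n)` generated over `ℂ` by all
ratios `G i / G j`: the function field of the image of the map given by `G`, embedded by pullback -/
noncomputable def imageField {m n : ℕ} (G : Fin m → MvPolynomial (Fin n) ℂ) :
    IntermediateField ℂ (FractionRing (MvPolynomial (Fin n) ℂ)) :=
  IntermediateField.adjoin ℂ {z : FractionRing (MvPolynomial (Fin n) ℂ) |
    ∃ i j, z = algebraMap (MvPolynomial (Fin n) ℂ) (FractionRing (MvPolynomial (Fin n) ℂ)) (G i) /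
      algebraMap (MvPolynomial (Fin n) ℂ) (FractionRing (MvPolynomial (Fin n) ℂ)) (G j)}

/-- the Newton polytope of the tuple `G`: the convex hull in `ℝ ^ n` of the exponents of all
monomials which occur in one of the polynomials `G i` -/
def newtonPolytope {m n : ℕ} (G : Fin m → MvPolynomial (Fin n) ℂ) : Set (Fin n → ℝ) :=
  convexHull ℝ {v | ∃ i, ∃ α ∈ (G i).support, v = fun l => (α l : ℝ)}

/-- Let `F` be a cubic form in `n + 2` variables, `n ≥ 5`, whose partial derivatives have no
common zero besides the origin, and let `G` be a dominant rational map from projective `n`-space to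
the cubic `F = 0`, given by polynomials in `n` variables with Newton polytope `P`. Then
`ℂ(t_1, …, t_n)` is finite over the function field of the cubic, and the degree `δ` of the
map satisfies `3 * 2 ^ n * δ ≤ (n + 1)! vol P`. -/
theorem result (n : ℕ) (_hn : 5 ≤ n) (F : MvPolynomial (Fin (n + 2)) ℂ)
    (hF : F.IsHomogeneous 3)
    (hsmooth : ∀ z : Fin (n + 2) → ℂ, (∀ i, eval z (pderiv i F) = 0) → z = 0)
    (G : Fin (n + 2) → MvPolynomial (Fin n) ℂ) (hdominant : Dominant F G) :
    FiniteDimensional (imageField G) (FractionRing (MvPolynomial (Fin n) ℂ)) ∧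
    ((3 * 2 ^ n * Module.finrank (imageField G) (FractionRing (MvPolynomial (Fin n) ℂ)) :
      ℕ) : ℝ) ≤ ((n + 1).factorial : ℝ) * (volume (newtonPolytope G)).toReal := by
  obtain ⟨h1, h2⟩ := Pool.Agent.TH314.PD.bound_np (d := 3) (by omega) F hF hsmooth G
    hdominant.1 hdominant.2
  refine ⟨h1, ?_⟩
  rw [mul_comm]
  exact h2

end Pool.Agent.Results.MP_2619d0_ag.NewtonPolytopes
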