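import Mathlib
import Pool.Agent.TH238.QP.Final

/-!
# A general cubic hypersurface has no parametrisation by polynomials of degree at most two

Let `n ≥ 1`. There is one polynomial condition on the coefficients of the cubic forms in `n + 2` variables (a
nonempty Zariski open set of cubic hypersurfaces of dimension `n`, which contains the Fermat cubic) such that
for every cubic form `F` satisfying it the following holds. Let `R = ℂ[x_1, …, x_(n+1)] / (F(1, x))` be the
coordinate ring of the chart `x_0 = 1` of the hypersurface `X = (F = 0)`. For no number `N` of parameters there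
is an injective homomorphism of `ℂ`-algebras `R → ℂ(t_1, …, t_N)` (a dominant rational map from affine or
projective `N`-space to `X`) of the form `x_j ↦ g_j / q` with polynomials `q, g_1, …, g_(n+1)` of degree at most
two. So no such `X` is rational or unirational by quadratic forms in any number of homogeneous parameters.

Idea of the proof. Let `G` be the vector `(q, g_1, …, g_(n+1))`, let `A_i` be the symmetric matrix of `G_i` and
`M(ξ) = ∑ ξ_i A_i`. A tangent hyperplane `ξ` of `X` pulls back to a singular quadric, `M(∇F(G)) (1, t) = 0`.
Differentiating in the directions in which `G` does not change gives `rank M(∇F(G)) ≤ n + 3`. If the rank at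
`∇F(G)` is the generic rank of the linear system, then the kernel of `M` is isotropic for all the `A_i`, so
`G = 0`. Hence some minor `D ≠ 0` of `M`, of degree at most `n + 4`, vanishes on the dual variety of `X`. For the
Fermat cubic this is impossible (count the roots `x_0 ^ 2` of a polynomial), and so for a general cubic.
-/

namespace Pool.Agent.Results.MP_2619d0_ag.NoQuadraticParametrization

open Pool.Agent.TH238.QP

/-- **A general cubic hypersurface of dimension `n ≥ 1` is not dominated by an affine or projective space of any
dimension through polynomials of degree at most two.** The notation is that of the frozen statement of this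
problem: `P` is a polynomial in the coefficients of the cubic forms, and the quotient ring is the coordinate
ring of the chart `x_0 = 1`. -/
theorem result :
    ∀ n : ℕ, 1 ≤ n →
    ∃ P : MvPolynomial ((Fin (n + 1 + 1)) →₀ ℕ) ℂ,
      MvPolynomial.eval (fun m => (∑ i : Fin (n + 1 + 1), MvPolynomial.X i ^ 3 :
        MvPolynomial (Fin (n + 1 + 1)) ℂ).coeff m) P ≠ 0 ∧
      ∀ F : MvPolynomial (Fin (n + 1 + 1)) ℂ, F.IsHomogeneous 3 →
        MvPolynomial.eval (fun m => F.coeff m) P ≠ 0 →
        ∀ (N : ℕ) (ψ : (MvPolynomial (Fin (n + 1)) ℂ ⧸
            Ideal.span {MvPolynomial.aeval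
              (Fin.cases (motive := fun _ => MvPolynomial (Fin (n + 1)) ℂ) 1
                (fun j => MvPolynomial.X j)) F})
            →ₐ[ℂ] FractionRing (MvPolynomial (Fin N) ℂ)), Function.Injective ψ →
          ∀ (q : MvPolynomial (Fin N) ℂ) (g : Fin (n + 1) → MvPolynomial (Fin N) ℂ),
            q ≠ 0 → q.totalDegree ≤ 2 → (∀ j, (g j).totalDegree ≤ 2) →
            ∃ j, ψ (Ideal.Quotient.mk _ (MvPolynomial.X j)) * algebraMap _ _ q ≠
              algebraMap _ _ (g j) := by
  intro n hn
  obtain ⟨P, hP, h⟩ := generic_cubic n hn
  refine ⟨P, hP, ?_⟩
  intro F hF hPF N ψ hψ q g hq hq2 hg2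
  exact not_dominant n F hF (h F hF hPF) N ψ hψ q g hq hq2 hg2

end Pool.Agent.Results.MP_2619d0_ag.NoQuadraticParametrization
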