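import Pool.Agent.TH314.PD.Final

/-! Rational maps from projective spaces onto smooth cubic hypersurfaces of dimension `n` at least
5, given by forms of degree `k`: `3 * 2 ^ n * δ ≤ (n + 1) (k - 1) ^ n`. -/

set_option autoImplicit false

namespace Pool.Agent.Results.MP_2619d0_ag.ParametrizationDegree

open MvPolynomial

/-- The tuple `G` of polynomials in `N` variables gives a dominant rational map to the
hypersurface `F = 0`: `F` vanishes at `G`, and every form vanishing at `G` is divisible by `F`. -/
def Dominant {m N : ℕ} (F : MvPolynomial (Fin m) ℂ) (G : Fin m → MvPolynomial (Fin N) ℂ) : Prop :=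
  aeval G F = 0 ∧ ∀ (e : ℕ) (H : MvPolynomial (Fin m) ℂ), H.IsHomogeneous e →
    aeval G H = 0 → F ∣ H

/-- the restriction of `G` to an affine subspace of the space of parameters: the polynomials
`G i (c + A s)` in the variables `s_1, …, s_n` -/
noncomputable def restriction {m N n : ℕ} (G : Fin m → MvPolynomial (Fin N) ℂ) (c : Fin N → ℂ)
    (A : Matrix (Fin N) (Fin n) ℂ) : Fin m → MvPolynomial (Fin n) ℂ :=
  fun i => aeval (fun l : Fin N =>
    (C (c l) + ∑ s, C (A l s) * X s : MvPolynomial (Fin n) ℂ)) (G i)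

/-- the degree of the map given by `G`: the degree of the field of rational functions
`ℂ(s_1, …, s_n)` over its subfield generated over `ℂ` by all ratios `G i / G j` -/
noncomputable def mapDegree {m n : ℕ} (G : Fin m → MvPolynomial (Fin n) ℂ) : ℕ :=
  Module.finrank (IntermediateField.adjoin ℂ {z : FractionRing (MvPolynomial (Fin n) ℂ) |
    ∃ i j, z = algebraMap (MvPolynomial (Fin n) ℂ) (FractionRing (MvPolynomial (Fin n) ℂ)) (G i) /
      algebraMap (MvPolynomial (Fin n) ℂ) (FractionRing (MvPolynomial (Fin n) ℂ)) (G j)})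
    (FractionRing (MvPolynomial (Fin n) ℂ))

/-- Let `F` be a cubic form in `n + 2` variables, `n ≥ 5`, whose partial derivatives have no common
zero besides the origin, and let `G` be a dominant rational map from projective `N`-space to the
cubic hypersurface `F = 0`, given by polynomials of degree at most `k` in `N` variables. Then the
restriction of `G` to some `n`-dimensional affine subspace of the parameters is dominant, and the
degree `δ` of every such restriction satisfies `1 ≤ δ` and `3 * 2 ^ n * δ ≤ (n + 1) (k - 1) ^ n`.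
In particular `k ≥ 3`, and `3 δ ≤ n + 1` for `k = 3`. -/
theorem result (n N k : ℕ) (hn : 5 ≤ n) (F : MvPolynomial (Fin (n + 2)) ℂ)
    (hF : F.IsHomogeneous 3)
    (hsmooth : ∀ z : Fin (n + 2) → ℂ, (∀ i, eval z (pderiv i F) = 0) → z = 0)
    (G : Fin (n + 2) → MvPolynomial (Fin N) ℂ) (hG : ∀ i, (G i).totalDegree ≤ k)
    (hdominant : Dominant F G) :
    (∃ (c : Fin N → ℂ) (A : Matrix (Fin N) (Fin n) ℂ), Dominant F (restriction G c A)) ∧
    (∀ (c : Fin N → ℂ) (A : Matrix (Fin N) (Fin n) ℂ), Dominant F (restriction G c A) →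
      1 ≤ mapDegree (restriction G c A) ∧
      3 * 2 ^ n * mapDegree (restriction G c A) ≤ (n + 1) * (k - 1) ^ n ∧
      (k = 3 → 3 * mapDegree (restriction G c A) ≤ n + 1)) ∧
    3 ≤ k := by
  have h1 : ∃ (c : Fin N → ℂ) (A : Matrix (Fin N) (Fin n) ℂ), Dominant F (restriction G c A) := by
    obtain ⟨c, A, h1, h2⟩ := Pool.Agent.TH314.PD.restrict_exists (by omega) hF
      (Pool.Agent.TH314.PD.ne_zero_of_smooth hsmooth) G hdominant.1 hdominant.2
    exact ⟨c, A, h1, h2⟩
  have h2 : ∀ (c : Fin N → ℂ) (A : Matrix (Fin N) (Fin n) ℂ), Dominant F (restriction G c A) →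
      1 ≤ mapDegree (restriction G c A) ∧
      mapDegree (restriction G c A) * (3 * (3 - 1) ^ n) ≤ (n + 1) * (k - 1) ^ n := by
    intro c A hdom
    obtain ⟨h3, h4⟩ := Pool.Agent.TH314.PD.bound (by omega) F hF hsmooth (restriction G c A)
      (fun i => Pool.Agent.TH314.PD.aeval_sub_deg c A (G i) (hG i)) hdom.1 hdom.2
    have h5 : 0 < Module.finrank (Pool.Agent.TH314.PD.ratioField fun i =>
        algebraMap (MvPolynomial (Fin n) ℂ) (FractionRing (MvPolynomial (Fin n) ℂ))
          (restriction G c A i)) (FractionRing (MvPolynomial (Fin n) ℂ)) :=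
      Module.finrank_pos
    exact ⟨h5, h4⟩
  refine ⟨h1, fun c A hdom => ⟨(h2 c A hdom).1, ?_, ?_⟩, ?_⟩
  · have h3 := (h2 c A hdom).2
    rw [show 3 - 1 = 2 from rfl, mul_comm] at h3
    exact h3
  · intro hk
    have h3 := (h2 c A hdom).2
    subst hk
    rw [show 3 - 1 = 2 from rfl, ← mul_assoc] at h3
    have h4 := Nat.le_of_mul_le_mul_right h3 (by positivity)
    omega
  · obtain ⟨c, A, hdom⟩ := h1
    exact Pool.Agent.TH314.PD.degree_le (by omega) (h2 c A hdom).1 (h2 c A hdom).2

end Pool.Agent.Results.MP_2619d0_ag.ParametrizationDegree
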