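import Pool.Agent.TH920.MD.Fi

/-! Parametrizations of smooth cubic hypersurfaces of dimension `n ≥ 5` which have bounded degree in
each of some parameters and bounded total degree in the others. -/

set_option autoImplicit false

namespace Pool.Agent.Results.MP_2619d0_ag.SeparateDegrees

open MvPolynomial

/-- The tuple `G` of polynomials in `N` variables gives a dominant rational map to the
hypersurface `F = 0`: `F` vanishes at `G`, and every form vanishing at `G` is divisible by `F`. -/
def Dominant {m N : ℕ} (F : MvPolynomial (Fin m) ℂ) (G : Fin m → MvPolynomial (Fin N) ℂ) : Prop :=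
  aeval G F = 0 ∧ ∀ (e : ℕ) (H : MvPolynomial (Fin m) ℂ), H.IsHomogeneous e →
    aeval G H = 0 → F ∣ H

/-- the polynomials `G i` have degree at most `a` in each variable of `J`, and total degree at most
`k` in the other variables -/
def DegreeIn {m N : ℕ} (J : Finset (Fin N)) (a k : ℕ) (G : Fin m → MvPolynomial (Fin N) ℂ) :
    Prop :=
  ∀ i, ∀ α ∈ (G i).support, (∀ l ∈ J, α l ≤ a) ∧ ∑ l ∈ Jᶜ, α l ≤ k

/-- the subfield of the field of rational functions `ℂ(t_1, …, t_n)` generated over `ℂ` by all
ratios `G i / G j`: the function field of the image of the map given by `G`, embedded by pullback -/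
noncomputable def imageField {m n : ℕ} (G : Fin m → MvPolynomial (Fin n) ℂ) :
    IntermediateField ℂ (FractionRing (MvPolynomial (Fin n) ℂ)) :=
  IntermediateField.adjoin ℂ {z : FractionRing (MvPolynomial (Fin n) ℂ) |
    ∃ i j, z = algebraMap (MvPolynomial (Fin n) ℂ) (FractionRing (MvPolynomial (Fin n) ℂ)) (G i) /
      algebraMap (MvPolynomial (Fin n) ℂ) (FractionRing (MvPolynomial (Fin n) ℂ)) (G j)}

theorem aff {N n : ℕ} (c : Fin N → ℂ) (A : Fin N → Fin n → ℂ) (l : Fin N) :
    (Pool.Agent.TH314.PD.sub c A l).totalDegree ≤ 1 := by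
  unfold Pool.Agent.TH314.PD.sub
  refine (totalDegree_add _ _).trans (max_le (by simp) ?_)
  refine totalDegree_finsetSum_le fun s _ => ?_
  refine (totalDegree_mul _ _).trans ?_
  rw [totalDegree_C, totalDegree_X, zero_add]

/-- Let `F` be a cubic form in `n + 2` variables, `n ≥ 5`, whose partial derivatives have no common
zero besides the origin.
(1) If polynomials in `n` variables have degree at most `a` in each variable of a nonempty set `J`
and total degree at most `k ≥ 2` in the others and give a dominant rational map to the cubic `F = 0`, then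
`ℂ(t_1, …, t_n)` is finite over the function field of the cubic, and the degree `δ` of the map
satisfies
`3 * 2 ^ n * δ * (k - 1) ^ |J| * (n - |J|)! ≤ (n + 1)! * a ^ |J| * k ^ |J| * (k - 1) ^ (n - |J|)`.
(2) If the number of variables is arbitrary, then affine-linear polynomials in `n` variables can be
substituted for the variables such that the resulting map is dominant and its degree satisfies this
inequality with some `r ≤ min |J| n` instead of `|J|`.
(3) If `2 * a * n * (n + 1) < 3 * 2 ^ n`, then no polynomials in any number of variables which have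
degree at most `a` in one variable and total degree at most two in the others give a dominant
rational map to the cubic. -/
theorem result (n : ℕ) (hn : 5 ≤ n) (F : MvPolynomial (Fin (n + 2)) ℂ) (hF : F.IsHomogeneous 3)
    (hsmooth : ∀ z : Fin (n + 2) → ℂ, (∀ i, eval z (pderiv i F) = 0) → z = 0) :
    (∀ (a k : ℕ) (J : Finset (Fin n)) (G : Fin (n + 2) → MvPolynomial (Fin n) ℂ), J.Nonempty →
      1 ≤ a → 2 ≤ k → DegreeIn J a k G → Dominant F G →
      FiniteDimensional (imageField G) (FractionRing (MvPolynomial (Fin n) ℂ)) ∧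
      3 * 2 ^ n * Module.finrank (imageField G) (FractionRing (MvPolynomial (Fin n) ℂ)) *
        ((k - 1) ^ J.card * (n - J.card).factorial) ≤
        (n + 1).factorial * (a ^ J.card * k ^ J.card * (k - 1) ^ (n - J.card))) ∧
    (∀ (N a k : ℕ) (J : Finset (Fin N)) (G : Fin (n + 2) → MvPolynomial (Fin N) ℂ),
      J.Nonempty → 1 ≤ a → 2 ≤ k → DegreeIn J a k G → Dominant F G →
      ∃ (s : Fin N → MvPolynomial (Fin n) ℂ) (r : ℕ), (∀ l, (s l).totalDegree ≤ 1) ∧
        Dominant F (fun i => aeval s (G i)) ∧ r ≤ J.card ∧ r ≤ n ∧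
        FiniteDimensional (imageField fun i => aeval s (G i))
          (FractionRing (MvPolynomial (Fin n) ℂ)) ∧
        3 * 2 ^ n * Module.finrank (imageField fun i => aeval s (G i))
          (FractionRing (MvPolynomial (Fin n) ℂ)) * ((k - 1) ^ r * (n - r).factorial) ≤
          (n + 1).factorial * (a ^ r * k ^ r * (k - 1) ^ (n - r))) ∧
    (∀ (N a : ℕ) (j : Fin N) (G : Fin (n + 2) → MvPolynomial (Fin N) ℂ), 1 ≤ a →
      2 * a * (n * (n + 1)) < 3 * 2 ^ n → DegreeIn {j} a 2 G → ¬ Dominant F G) := by
  have part2 : ∀ (N a k : ℕ) (J : Finset (Fin N)) (G : Fin (n + 2) → MvPolynomial (Fin N) ℂ),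
      J.Nonempty → 1 ≤ a → 2 ≤ k → DegreeIn J a k G → Dominant F G →
      ∃ (s : Fin N → MvPolynomial (Fin n) ℂ) (r : ℕ), (∀ l, (s l).totalDegree ≤ 1) ∧
        Dominant F (fun i => aeval s (G i)) ∧ r ≤ J.card ∧ r ≤ n ∧
        FiniteDimensional (imageField fun i => aeval s (G i))
          (FractionRing (MvPolynomial (Fin n) ℂ)) ∧
        3 * 2 ^ n * Module.finrank (imageField fun i => aeval s (G i))
          (FractionRing (MvPolynomial (Fin n) ℂ)) * ((k - 1) ^ r * (n - r).factorial) ≤
          (n + 1).factorial * (a ^ r * k ^ r * (k - 1) ^ (n - r)) := by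
    intro N a k J G _ ha hk hG hdom
    obtain ⟨c, A, r, hr1, hr2, h1, h2, h3, h4⟩ := Pool.Agent.TH920.MD.param_md (d := 3)
      (k := k) (e := a) ha (by norm_num) F hF hsmooth J G hG hk hdom.1 hdom.2
    refine ⟨Pool.Agent.TH314.PD.sub c A, r, aff c A, ⟨h1, h2⟩, hr1, hr2, h3, ?_⟩
    have h5 : Module.finrank (imageField fun i => aeval (Pool.Agent.TH314.PD.sub c A) (G i))
        (FractionRing (MvPolynomial (Fin n) ℂ)) * (3 * 2 ^ n) *
        ((k - 1) ^ r * (n - r).factorial) ≤
        ((n + 1).factorial * a ^ r) * (k ^ r * (k - 1) ^ (n - r)) := h4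
    rw [mul_comm (3 * 2 ^ n)]
    exact h5.trans (le_of_eq (by ring))
  refine ⟨?_, part2, ?_⟩
  · intro a k J G _ ha hk hG hdom
    have hJn : J.card ≤ n := by
      have := Finset.card_le_univ J
      rwa [Fintype.card_fin] at this
    have hc : Jᶜ.card = n - J.card := by
      rw [Finset.card_compl, Fintype.card_fin]
    obtain ⟨h1, h2⟩ := Pool.Agent.TH920.MD.bound_md (d := 3) (e := a) ha (by norm_num) F hF
      hsmooth Jᶜ G (fun i α hα => ⟨fun l hl => (hG i α hα).1 l (by
        rw [Finset.mem_compl, not_not] at hl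
        exact hl), (hG i α hα).2⟩) hk hdom.1 hdom.2
    refine ⟨h1, ?_⟩
    rw [hc, show n - (n - J.card) = J.card by omega] at h2
    have h3 : Module.finrank (imageField G) (FractionRing (MvPolynomial (Fin n) ℂ)) *
        (3 * 2 ^ n) * ((k - 1) ^ J.card * (n - J.card).factorial) ≤
        ((n + 1).factorial * a ^ J.card) * (k ^ J.card * (k - 1) ^ (n - J.card)) := h2
    rw [mul_comm (3 * 2 ^ n)]
    exact h3.trans (le_of_eq (by ring))
  · intro N a j G ha hlt hG hdom
    obtain ⟨s, r, -, -, hr1, -, hfd, h4⟩ := part2 N a 2 {j} G (Finset.singleton_nonempty j) ha le_rfl hG hdom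
    rw [Finset.card_singleton] at hr1
    have h5 : 0 < Module.finrank (imageField fun i => aeval s (G i))
        (FractionRing (MvPolynomial (Fin n) ℂ)) := Module.finrank_pos
    set δ := Module.finrank (imageField fun i => aeval s (G i))
        (FractionRing (MvPolynomial (Fin n) ℂ)) with hδ
    have hp : 3 * 2 ^ n ≤ 3 * 2 ^ n * δ := Nat.le_mul_of_pos_right _ h5
    have hr : r = 0 ∨ r = 1 := by omega
    rcases hr with rfl | rfl
    · simp only [pow_zero, one_mul, Nat.sub_zero, Nat.add_one_sub_one, one_pow, mul_one] at h4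
      rw [Nat.factorial_succ] at h4
      have h6 := Nat.le_of_mul_le_mul_right h4 (Nat.factorial_pos n)
      have h7 : n + 1 ≤ n * (n + 1) := Nat.le_mul_of_pos_left _ (by omega)
      have h8 : n * (n + 1) ≤ 2 * a * (n * (n + 1)) := Nat.le_mul_of_pos_left _ (by omega)
      omega
    · simp only [Nat.add_one_sub_one, one_pow, one_mul, pow_one, mul_one] at h4
      obtain ⟨m, rfl⟩ : ∃ m, n = m + 1 := ⟨n - 1, by omega⟩
      rw [Nat.add_sub_cancel, Nat.factorial_succ (m + 1), Nat.factorial_succ m] at h4
      have h6 : 3 * 2 ^ (m + 1) * δ * m.factorial ≤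
          (2 * a * ((m + 1) * (m + 1 + 1))) * m.factorial := by
        calc 3 * 2 ^ (m + 1) * δ * m.factorial ≤
            (m + 1 + 1) * ((m + 1) * m.factorial) * (a * 2) := h4
          _ = (2 * a * ((m + 1) * (m + 1 + 1))) * m.factorial := by ring
      have h7 := Nat.le_of_mul_le_mul_right h6 (Nat.factorial_pos m)
      omega

end Pool.Agent.Results.MP_2619d0_ag.SeparateDegrees
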